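import Mathlib

/-!
# MP_a41a76_co : MXS does not imply epistemic EF1 for additive goods

Four agents with the same additive valuation and twenty goods: five goods of value `9`, twelve goods
of value `10` and three goods of value `15`.  Agent `0` gets the three goods of value `15`
(total `45`).  The allocation with bundles `9,9,9,9,9` and three times `10,10,10,10,15` is EFX,
so the minimum EFX share is at most `45` and every bundle of our allocation is worth at least `45`.
But the other seventeen goods have total value `165 = 3 * 55`; in an allocation that is EF1 for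
agent `0` every other bundle has value at most `45 + 10 = 55`, hence exactly `55 = 10 a + 9 b`,
which forces `b ≥ 5` in each of the three bundles, while there are only five goods of value `9`.
-/

namespace Pool.Agent.Results.MP_a41a76_co.NotEEF1

open Finset

section Defs

variable {n : ℕ} {M : Type} [Fintype M] [DecidableEq M]

/-- The additive value of a set of goods. -/
def val (v : M → ℝ) (S : Finset M) : ℝ := ∑ g ∈ S, v g

/-- An allocation is a map sending every good to its owner; `bundle A i` is the set of goods of
agent `i`. -/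
def bundle (A : M → Fin n) (i : Fin n) : Finset M := univ.filter (fun g => A g = i)

/-- Agent `i`, with additive valuation `v`, is EF1-satisfied by the allocation `B`. -/
def EF1 (v : M → ℝ) (B : M → Fin n) (i : Fin n) : Prop :=
  ∀ j : Fin n, j ≠ i → val v (bundle B i) ≥ val v (bundle B j) ∨
    ∃ g ∈ bundle B j, val v (bundle B i) ≥ val v (bundle B j \ {g})

/-- The allocation `A` is epistemic EF1 for agent `i`. -/
def EEF1 (v : M → ℝ) (A : M → Fin n) (i : Fin n) : Prop :=
  ∃ B : M → Fin n, bundle B i = bundle A i ∧ EF1 v B i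

/-- Agent `i`, with additive valuation `v`, is EFX-satisfied by the allocation `B`. -/
def EFX (v : M → ℝ) (B : M → Fin n) (i : Fin n) : Prop :=
  ∀ j : Fin n, j ≠ i → ∀ g ∈ bundle B j, v g > 0 →
    val v (bundle B i) ≥ val v (bundle B j \ {g})

/-- The allocation `A` is MXS for agent `i`: it gives agent `i` at least the minimum EFX share. -/
def MXS (v : M → ℝ) (A : M → Fin n) (i : Fin n) : Prop :=
  ∃ B : M → Fin n, EFX v B i ∧ val v (bundle A i) ≥ val v (bundle B i)

end Defs

/-- The values of the twenty goods: `15,15,15`, then twelve times `10`, then five times `9`. -/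
def w (g : Fin 20) : ℕ := if g.1 < 3 then 15 else if g.1 < 15 then 10 else 9

/-- The allocation: agent `0` gets the goods of value `15`; agents `1`, `2` and `3` get
`10,10,10,10` each and `9`, `9`, `9,9,9` respectively. -/
def alloc (g : Fin 20) : Fin 4 :=
  if g.1 < 3 then 0 else if g.1 < 7 then 1 else if g.1 < 11 then 2 else if g.1 < 15 then 3
  else if g.1 = 15 then 1 else if g.1 = 16 then 2 else 3

/-- The EFX allocation in which agent `i` has the five goods of value `9` and the others have
`15,10,10,10,10` each. -/
def efx (i : Fin 4) (g : Fin 20) : Fin 4 :=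
  if g.1 < 3 then i + 1 + ⟨g.1 % 3, by omega⟩
  else if g.1 < 7 then i + 1 else if g.1 < 11 then i + 2 else if g.1 < 15 then i + 3 else i

lemma val_cast (S : Finset (Fin 20)) : val (fun g => (w g : ℝ)) S = ((∑ g ∈ S, w g : ℕ) : ℝ) := by
  unfold val; push_cast; rfl

lemma efx_efx (i : Fin 4) : EFX (fun g => (w g : ℝ)) (efx i) i := by
  intro j hj g hg _
  rw [val_cast, val_cast]
  have key : ∀ i j : Fin 4, j ≠ i → ∀ g : Fin 20, efx i g = j →
      ∑ g ∈ univ.filter (fun x => efx i x = j) \ {g}, w g
        ≤ ∑ g ∈ univ.filter (fun x => efx i x = i), w g := by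
    decide +kernel
  have := key i j hj g (by simpa [bundle] using hg)
  exact_mod_cast this

lemma mxs (i : Fin 4) : MXS (fun g => (w g : ℝ)) alloc i := by
  refine ⟨efx i, efx_efx i, ?_⟩
  rw [val_cast, val_cast]
  have key : ∀ i : Fin 4, ∑ g ∈ univ.filter (fun x => efx i x = i), w g
        ≤ ∑ g ∈ univ.filter (fun x => alloc x = i), w g := by
    decide +kernel
  exact_mod_cast key i

lemma not_eef1 : ¬ EEF1 (fun g => (w g : ℝ)) alloc 0 := by
  rintro ⟨B, hB, hE⟩
  have hB0 : ∀ g : Fin 20, B g = 0 ↔ g.1 < 3 := by
    intro g
    have h := Finset.ext_iff.mp hB g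
    simp only [bundle, mem_filter, mem_univ, true_and] at h
    rw [h]
    have key : ∀ g : Fin 20, alloc g = 0 ↔ g.1 < 3 := by decide +kernel
    exact key g
  have hS0 : ∑ g ∈ univ.filter (fun x : Fin 20 => B x = 0), w g = 45 := by
    have : univ.filter (fun x : Fin 20 => B x = 0) = univ.filter (fun x : Fin 20 => x.1 < 3) := by
      ext g; simp [hB0]
    rw [this]; decide +kernel
  -- every other bundle has value at most 55
  have hle : ∀ j : Fin 4, j ≠ 0 → ∑ g ∈ univ.filter (fun x : Fin 20 => B x = j), w g ≤ 55 := by
    intro j hj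
    rcases hE j hj with h | ⟨g, hg, h⟩
    · rw [val_cast, val_cast] at h
      have h' : ∑ g ∈ bundle B j, w g ≤ ∑ g ∈ bundle B 0, w g := by exact_mod_cast h
      unfold bundle at h'
      rw [hS0] at h'
      omega
    · rw [val_cast, val_cast] at h
      have h' : ∑ g ∈ bundle B j \ {g}, w g ≤ ∑ g ∈ bundle B 0, w g := by exact_mod_cast h
      have hsub : ({g} : Finset (Fin 20)) ⊆ bundle B j := by simpa using hg
      have h2 := Finset.sum_sdiff (f := w) hsub
      rw [Finset.sum_singleton] at h2
      have hg' : B g = j := by simpa [bundle] using hg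
      have hg3 : ¬ g.1 < 3 := by
        intro hlt
        exact hj (hg' ▸ (hB0 g).2 hlt)
      have hw : w g ≤ 10 := by
        unfold w
        rw [if_neg hg3]
        split_ifs <;> omega
      unfold bundle at h' h2
      rw [hS0] at h'
      omega
  -- value plus the number of nines is ten times the number of goods
  have hten : ∀ j : Fin 4, j ≠ 0 →
      ∑ g ∈ univ.filter (fun x : Fin 20 => B x = j), w g
        + (univ.filter (fun x : Fin 20 => B x = j ∧ 15 ≤ x.1)).card
      = 10 * (univ.filter (fun x : Fin 20 => B x = j)).card := by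
    intro j hj
    have h1 : (univ.filter (fun x : Fin 20 => B x = j ∧ 15 ≤ x.1)).card
        = ∑ g ∈ univ.filter (fun x : Fin 20 => B x = j), (if 15 ≤ g.1 then 1 else 0) := by
      rw [Finset.card_filter, Finset.sum_filter]
      apply Finset.sum_congr rfl
      intro x _
      by_cases h1 : B x = j <;> by_cases h2 : 15 ≤ x.1 <;> simp [h1, h2]
    rw [h1, ← Finset.sum_add_distrib, Finset.card_eq_sum_ones, Finset.mul_sum]
    apply Finset.sum_congr rfl
    intro g hg
    have hg' : B g = j := by simpa using hg
    have hg3 : ¬ g.1 < 3 := by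
      intro hlt
      exact hj (hg' ▸ (hB0 g).2 hlt)
    unfold w
    rw [if_neg hg3]
    split_ifs <;> omega
  -- totals
  have htot : ∑ j : Fin 4, ∑ g ∈ univ.filter (fun x : Fin 20 => B x = j), w g = 210 := by
    rw [Finset.sum_fiberwise]
    decide +kernel
  have hnine : ∑ j : Fin 4, (univ.filter (fun x : Fin 20 => B x = j ∧ 15 ≤ x.1)).card = 5 := by
    have : ∀ j : Fin 4, (univ.filter (fun x : Fin 20 => B x = j ∧ 15 ≤ x.1)).card
        = ∑ g ∈ univ.filter (fun x : Fin 20 => B x = j), (if 15 ≤ g.1 then 1 else 0) := by
      intro j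
      rw [Finset.card_filter, Finset.sum_filter]
      apply Finset.sum_congr rfl
      intro x _
      by_cases h1 : B x = j <;> by_cases h2 : 15 ≤ x.1 <;> simp [h1, h2]
    rw [Finset.sum_congr rfl (fun j _ => this j), Finset.sum_fiberwise]
    decide +kernel
  rw [Fin.sum_univ_four] at htot hnine
  have a1 := hle 1 (by decide)
  have a2 := hle 2 (by decide)
  have a3 := hle 3 (by decide)
  have b1 := hten 1 (by decide)
  have b2 := hten 2 (by decide)
  have b3 := hten 3 (by decide)
  rw [hS0] at htot
  omega

/-- MXS does not imply epistemic EF1 for additive valuations over goods: the universal statement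
is false, and it already fails for four agents with identical positive valuations. -/
theorem result :
    (¬ ∀ (n : ℕ) (M : Type) [Fintype M] [DecidableEq M] (v : Fin n → M → ℝ)
        (_ : ∀ i g, 0 ≤ v i g) (A : M → Fin n),
        (∀ i, MXS (v i) A i) → ∀ i, EEF1 (v i) A i) ∧
    ∃ (v : Fin 20 → ℝ) (A : Fin 20 → Fin 4), (∀ g, 0 < v g) ∧
      (∀ i, MXS v A i) ∧ ¬ EEF1 v A 0 := by
  refine ⟨?_, fun g => (w g : ℝ), alloc, ?_, mxs, not_eef1⟩
  · intro h
    exact not_eef1 (h 4 (Fin 20) (fun _ g => (w g : ℝ)) (fun _ g => Nat.cast_nonneg _) alloc mxs 0)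
  · intro g
    have : ∀ g : Fin 20, 0 < w g := by decide +kernel
    show (0 : ℝ) < (w g : ℝ)
    exact_mod_cast this g

end Pool.Agent.Results.MP_a41a76_co.NotEEF1
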